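import Pool.Agent.H44.MS.Targets
import Pool.Agent.H44.MS.Basics

/-! # Sums over subsets factor over the blocks -/

set_option autoImplicit false

namespace Pool.Agent.H36.MS

open Finset Real Pool.Agent.H44.MS

theorem bp_split (P : Finset ℕ) (β : ℕ → ℕ) (I : ℕ) (h : ∀ p ∈ P, β p < I + 1)
    (K : Finset ℕ → ℝ) :
    ∑ T ∈ P.powerset, K T =
      ∑ A ∈ (P.filter (fun p => β p < I)).powerset,
        ∑ B ∈ (P.filter (fun p => β p = I)).powerset, K (A ∪ B) := by
  rw [← Finset.sum_product']
  refine Finset.sum_bij' (fun T _ => (T.filter (fun p => β p < I), T.filter (fun p => β p = I)))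
    (fun x _ => x.1 ∪ x.2) ?_ ?_ ?_ ?_ ?_
  · intro T hT
    have hT' := Finset.mem_powerset.1 hT
    exact Finset.mem_product.2 ⟨Finset.mem_powerset.2 (Finset.filter_subset_filter _ hT'),
      Finset.mem_powerset.2 (Finset.filter_subset_filter _ hT')⟩
  · rintro ⟨A, B⟩ hx
    obtain ⟨hA, hB⟩ := Finset.mem_product.1 hx
    exact Finset.mem_powerset.2 (Finset.union_subset
      ((Finset.mem_powerset.1 hA).trans (Finset.filter_subset _ _))
      ((Finset.mem_powerset.1 hB).trans (Finset.filter_subset _ _)))
  · intro T hT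
    ext p
    simp only [Finset.mem_union, Finset.mem_filter]
    constructor
    · rintro (h1 | h1)
      · exact h1.1
      · exact h1.1
    · intro h1
      have h2 := h p (Finset.mem_powerset.1 hT h1)
      rcases lt_or_eq_of_le (Nat.lt_succ_iff.1 h2) with h3 | h3
      · exact Or.inl ⟨h1, h3⟩
      · exact Or.inr ⟨h1, h3⟩
  · rintro ⟨A, B⟩ hx
    obtain ⟨hA, hB⟩ := Finset.mem_product.1 hx
    have hA' : ∀ p ∈ A, β p < I := fun p hp =>
      (Finset.mem_filter.1 (Finset.mem_powerset.1 hA hp)).2
    have hB' : ∀ p ∈ B, β p = I := fun p hp =>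
      (Finset.mem_filter.1 (Finset.mem_powerset.1 hB hp)).2
    refine Prod.ext ?_ ?_
    · ext p
      simp only [Finset.mem_union, Finset.mem_filter]
      constructor
      · rintro ⟨h1 | h1, h2⟩
        · exact h1
        · exact absurd (hB' p h1) h2.ne
      · intro h1
        exact ⟨Or.inl h1, hA' p h1⟩
    · ext p
      simp only [Finset.mem_union, Finset.mem_filter]
      constructor
      · rintro ⟨h1 | h1, h2⟩
        · exact absurd h2 (hA' p h1).ne
        · exact h1
      · intro h1
        exact ⟨Or.inr h1, hB' p h1⟩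
  · intro T hT
    congr 1
    ext p
    simp only [Finset.mem_union, Finset.mem_filter]
    constructor
    · intro h1
      have h2 := h p (Finset.mem_powerset.1 hT h1)
      rcases lt_or_eq_of_le (Nat.lt_succ_iff.1 h2) with h3 | h3
      · exact Or.inl ⟨h1, h3⟩
      · exact Or.inr ⟨h1, h3⟩
    · rintro (h1 | h1)
      · exact h1.1
      · exact h1.1

theorem bp_single (β : ℕ → ℕ) (F : ℕ → Finset ℕ → ℝ) :
    ∀ (I : ℕ) (P : Finset ℕ), (∀ p ∈ P, β p < I) →
      ∑ T ∈ P.powerset, ∏ i ∈ range I, F i (T.filter (fun p => β p = i)) =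
        ∏ i ∈ range I, ∑ U ∈ (P.filter (fun p => β p = i)).powerset, F i U := by
  intro I
  induction I with
  | zero =>
    intro P h
    have hP : P = ∅ := Finset.eq_empty_of_forall_notMem (fun p hp => absurd (h p hp) (by omega))
    subst hP
    simp
  | succ I ih =>
    intro P h
    rw [bp_split P β I h, Finset.prod_range_succ]
    have h1 : ∀ i ∈ range I, ∑ U ∈ (P.filter (fun p => β p = i)).powerset, F i U =
        ∑ U ∈ ((P.filter (fun p => β p < I)).filter (fun p => β p = i)).powerset, F i U := by
      intro i hi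
      have hi' := Finset.mem_range.1 hi
      have h2 : P.filter (fun p => β p = i) =
          (P.filter (fun p => β p < I)).filter (fun p => β p = i) := by
        ext p
        simp only [Finset.mem_filter]
        constructor
        · rintro ⟨h3, h4⟩
          exact ⟨⟨h3, by omega⟩, h4⟩
        · rintro ⟨⟨h3, _⟩, h4⟩
          exact ⟨h3, h4⟩
      rw [← h2]
    rw [Finset.prod_congr rfl h1, ← ih (P.filter (fun p => β p < I))
      (fun p hp => (Finset.mem_filter.1 hp).2), Finset.sum_mul]
    refine Finset.sum_congr rfl (fun A hA => ?_)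
    rw [Finset.mul_sum]
    refine Finset.sum_congr rfl (fun B hB => ?_)
    have hA' : ∀ p ∈ A, β p < I := fun p hp =>
      (Finset.mem_filter.1 (Finset.mem_powerset.1 hA hp)).2
    have hB' : ∀ p ∈ B, β p = I := fun p hp =>
      (Finset.mem_filter.1 (Finset.mem_powerset.1 hB hp)).2
    rw [Finset.prod_range_succ]
    congr 1
    · refine Finset.prod_congr rfl (fun i hi => ?_)
      have hi' := Finset.mem_range.1 hi
      congr 1
      ext p
      simp only [Finset.mem_union, Finset.mem_filter]
      constructor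
      · rintro ⟨h1 | h1, h2⟩
        · exact ⟨h1, h2⟩
        · have := hB' p h1
          omega
      · rintro ⟨h1, h2⟩
        exact ⟨Or.inl h1, h2⟩
    · congr 1
      ext p
      simp only [Finset.mem_union, Finset.mem_filter]
      constructor
      · rintro ⟨h1 | h1, h2⟩
        · have := hA' p h1
          omega
        · exact h1
      · intro h1
        exact ⟨Or.inr h1, hB' p h1⟩

theorem pf_BP : T_BP := by
  intro P β I h
  refine ⟨fun F => bp_single β F I P h, fun F => ?_⟩
  have h1 : ∀ T₁ ∈ P.powerset, ∑ T₂ ∈ P.powerset,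
      ∏ i ∈ range I, F i (T₁.filter (fun p => β p = i)) (T₂.filter (fun p => β p = i)) =
      ∏ i ∈ range I, ∑ U₂ ∈ (P.filter (fun p => β p = i)).powerset,
        F i (T₁.filter (fun p => β p = i)) U₂ := fun T₁ _ =>
    bp_single β (fun i U => F i (T₁.filter (fun p => β p = i)) U) I P h
  rw [Finset.sum_congr rfl h1]
  exact bp_single β (fun i U₁ => ∑ U₂ ∈ (P.filter (fun p => β p = i)).powerset, F i U₁ U₂) I P h

end Pool.Agent.H36.MS
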