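import Pool.Agent.H6.MS.Defs

/-!
# CHS: a nontrivial character of `ZMod N` is far from constants
-/

set_option autoImplicit false

namespace Pool.Agent.H36.MS

open Pool.Agent.H6.MS

theorem hom_sum {N : ℕ} [NeZero N] (lam : ZMod N →+ UnitAddCircle) (hl : lam ≠ 0)
    (g : ZMod N → ℝ) (hg : ∀ y, ((g y : ℝ) : UnitAddCircle) = lam y) (θ : ℝ) :
    ∑ y : ZMod N, dd (g y - θ) = 2 * N := by
  classical
  have hex : ∃ a, lam a ≠ 0 := by
    by_contra hcon
    push Not at hcon
    exact hl (AddMonoidHom.ext hcon)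
  obtain ⟨a, ha⟩ := hex
  set ψ : ZMod N → ℂ := fun y => (AddCircle.toCircle (lam y) : ℂ) with hψ
  have hadd : ∀ y, ψ (y + a) = ψ a * ψ y := by
    intro y
    simp only [hψ, map_add, AddCircle.toCircle_add, Circle.coe_mul]
    ring
  have hne : ψ a ≠ 1 := by
    intro h1
    apply ha
    have h2 : AddCircle.toCircle (lam a) = 1 := by
      apply Circle.ext
      rw [Circle.coe_one]
      exact h1
    have h3 : AddCircle.toCircle (lam a) = AddCircle.toCircle (0 : UnitAddCircle) := by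
      rw [h2, AddCircle.toCircle_zero]
    exact AddCircle.injective_toCircle one_ne_zero h3
  have hS : ∑ y : ZMod N, ψ y = 0 := by
    have h1 : ∑ y : ZMod N, ψ (y + a) = ∑ y : ZMod N, ψ y :=
      Equiv.sum_comp (Equiv.addRight a) ψ
    have h2 : ∑ y : ZMod N, ψ (y + a) = ψ a * ∑ y : ZMod N, ψ y := by
      rw [Finset.mul_sum]
      exact Finset.sum_congr rfl fun y _ => hadd y
    have h3 : (1 - ψ a) * ∑ y : ZMod N, ψ y = 0 := by
      rw [sub_mul, one_mul, ← h2, h1, sub_self]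
    rcases mul_eq_zero.mp h3 with h4 | h4
    · exact absurd (sub_eq_zero.mp h4).symm hne
    · exact h4
  have hval : ∀ y, dd (g y - θ) =
      2 - 2 * (Complex.exp (((-(2 * Real.pi * θ) : ℝ) : ℂ) * Complex.I) * ψ y).re := by
    intro y
    have h1 : ψ y = Complex.exp (((2 * Real.pi * g y : ℝ) : ℂ) * Complex.I) := by
      simp only [hψ]
      rw [← hg y, AddCircle.toCircle_apply_mk, Circle.coe_exp]
      congr 2
      push_cast
      ring
    rw [h1, ← Complex.exp_add, ← add_mul, ← Complex.ofReal_add, Complex.exp_ofReal_mul_I_re, dd]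
    congr 3
    ring
  simp_rw [hval]
  rw [Finset.sum_sub_distrib, ← Finset.mul_sum, ← Complex.re_sum, ← Finset.mul_sum, hS]
  simp
  ring

theorem char_sum {N : ℕ} [NeZero N] (k : ℤ) (hk : ¬ (N : ℤ) ∣ k) (θ : ℝ) :
    ∑ x : ZMod N, dd ((k : ℝ) * (x.val : ℝ) / N - θ) = 2 * N := by
  classical
  have hN : (N : ℝ) ≠ 0 := by exact_mod_cast NeZero.ne N
  have h0 : zmultiplesHom UnitAddCircle (((k : ℝ) / N : ℝ) : UnitAddCircle) (N : ℤ) = 0 := by
    rw [zmultiplesHom_apply, ← AddCircle.coe_zsmul, AddCircle.coe_eq_zero_iff]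
    refine ⟨k, ?_⟩
    simp only [zsmul_eq_mul]
    push_cast
    field_simp
  set lam : ZMod N →+ UnitAddCircle :=
    ZMod.lift N ⟨zmultiplesHom UnitAddCircle (((k : ℝ) / N : ℝ) : UnitAddCircle), h0⟩ with hlam
  have hval : ∀ z : ℤ, lam (z : ZMod N) = (((z : ℝ) * ((k : ℝ) / N) : ℝ) : UnitAddCircle) := by
    intro z
    rw [hlam, ZMod.lift_coe]
    simp only [zmultiplesHom_apply]
    rw [← AddCircle.coe_zsmul, zsmul_eq_mul]
  refine hom_sum lam ?_ (fun x => (k : ℝ) * (x.val : ℝ) / N) ?_ θ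
  · intro h
    apply hk
    have h1 := hval 1
    rw [h] at h1
    simp only [Int.cast_one, one_mul, AddMonoidHom.zero_apply] at h1
    obtain ⟨m, hm⟩ := (AddCircle.coe_eq_zero_iff 1).mp h1.symm
    refine ⟨m, ?_⟩
    simp only [zsmul_eq_mul, mul_one] at hm
    have h2 : (k : ℝ) = (N : ℝ) * m := by
      rw [hm]
      field_simp
    exact_mod_cast h2
  · intro y
    have h1 := hval (y.val : ℤ)
    rw [Int.cast_natCast, ZMod.natCast_zmod_val] at h1
    rw [h1]
    congr 1
    push_cast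
    ring

end Pool.Agent.H36.MS
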