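import Pool.Agent.H44.MS.Targets
import Pool.Agent.H44.MS.Basics

/-! # Factorisation into the smooth and the rough part -/

set_option autoImplicit false

namespace Pool.Agent.H36.MS

open Finset Real Pool.Agent.H44.MS

theorem pf_FA : T_FA := by
  classical
  intro z N G
  have h1 : ∑ m ∈ Icc 1 N, ic (Good 0 z m) * G (rp z m) =
      ∑ m ∈ (Icc 1 N).filter (fun m => Good 0 z m), G (rp z m) :=
    sum_ic_mul _ _ _
  have h2 : ∑ s₀ ∈ Icc 1 N, ic (Smooth z s₀ ∧ Good 0 z s₀) *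
        ∑ q ∈ Icc 1 (N / s₀), ic (Rough z q) * G q =
      ∑ x ∈ ((Icc 1 N).sigma (fun s => Icc 1 (N / s))).filter
        (fun x => (Smooth z x.1 ∧ Good 0 z x.1) ∧ Rough z x.2), G x.2 := by
    rw [← sum_ic_mul, Finset.sum_sigma]
    refine Finset.sum_congr rfl (fun s _ => ?_)
    rw [Finset.mul_sum]
    refine Finset.sum_congr rfl (fun q _ => ?_)
    rw [ic_and (Smooth z s ∧ Good 0 z s) (Rough z q)]
    ring
  rw [h1, h2]
  refine Finset.sum_bij' (fun m _ => (⟨sp z m, rp z m⟩ : Σ _ : ℕ, ℕ)) (fun x _ => x.1 * x.2)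
    ?_ ?_ ?_ ?_ ?_
  · intro m hm
    obtain ⟨hm1, hm2⟩ := Finset.mem_filter.1 hm
    obtain ⟨h3, h4⟩ := Finset.mem_Icc.1 hm1
    have h0 : 0 < m := h3
    have h5 := sp_mul_rp z h0
    have h6 := sp_pos z m
    have h7 := rp_pos z m
    refine Finset.mem_filter.2 ⟨Finset.mem_sigma.2 ⟨Finset.mem_Icc.2 ⟨h6, ?_⟩,
      Finset.mem_Icc.2 ⟨h7, ?_⟩⟩, ⟨smooth_sp z m, (good_iff_good_sp 0 h0).1 hm2⟩, rough_rp z m⟩
    · calc sp z m ≤ sp z m * rp z m := Nat.le_mul_of_pos_right _ h7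
        _ = m := h5
        _ ≤ N := h4
    · rw [Nat.le_div_iff_mul_le h6, mul_comm, h5]
      exact h4
  · rintro ⟨s, q⟩ hx
    obtain ⟨hx1, ⟨hs, hg⟩, hq⟩ := Finset.mem_filter.1 hx
    obtain ⟨hs1, hq1⟩ := Finset.mem_sigma.1 hx1
    obtain ⟨h3, _⟩ := Finset.mem_Icc.1 hs1
    obtain ⟨h5, h6⟩ := Finset.mem_Icc.1 hq1
    have h0 : 0 < s := h3
    have h0' : 0 < q := h5
    refine Finset.mem_filter.2 ⟨Finset.mem_Icc.2 ⟨Nat.mul_pos h0 h0', ?_⟩,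
      (good_mul _ _ _ _).2 ⟨hg, good_of_rough hq⟩⟩
    rw [mul_comm]
    exact (Nat.le_div_iff_mul_le h0).1 h6
  · intro m hm
    obtain ⟨hm1, _⟩ := Finset.mem_filter.1 hm
    exact sp_mul_rp z (Finset.mem_Icc.1 hm1).1
  · rintro ⟨s, q⟩ hx
    obtain ⟨hx1, ⟨hs, hg⟩, hq⟩ := Finset.mem_filter.1 hx
    obtain ⟨hs1, hq1⟩ := Finset.mem_sigma.1 hx1
    have h := sp_rp_of_mul hs hq (Finset.mem_Icc.1 hs1).1 (Finset.mem_Icc.1 hq1).1
    simp only [h.1, h.2]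
  · intro m hm
    rfl

end Pool.Agent.H36.MS
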