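import Pool.Agent.H44.MS.Targets
import Pool.Agent.H44.MS.Basics

/-! # The level of the weights -/

set_option autoImplicit false

namespace Pool.Agent.H36.MS

open Finset Real Pool.Agent.H44.MS

theorem lv_sum (s I : ℕ) :
    ∑ i ∈ range I, (2 * ((s : ℝ) + i)) / 2 ^ i = 4 * s + 4 - (4 * s + 4 * I + 4) / 2 ^ I := by
  induction I with
  | zero => simp
  | succ I ih =>
    rw [Finset.sum_range_succ, ih]
    push_cast
    field_simp
    ring

theorem lv_block {z p : ℕ} (hp : 2 ≤ p) (hpz : p ≤ z) :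
    Real.log p ≤ Real.log z / 2 ^ bi z p := by
  have hz : z ≠ 0 := by omega
  have h1 : Nat.log p z ≠ 0 := (Nat.log_pos (by omega) hpz).ne'
  have h2 : 2 ^ bi z p ≤ Nat.log p z := by
    unfold bi
    exact Nat.pow_log_le_self 2 h1
  have h3 : p ^ 2 ^ bi z p ≤ z :=
    (Nat.pow_le_pow_right (by omega) h2).trans (Nat.pow_log_le_self p hz)
  have hp0 : (0 : ℝ) < p := by exact_mod_cast (by omega : 0 < p)
  rw [le_div_iff₀ (by positivity)]
  have h4 : ((p : ℝ)) ^ 2 ^ bi z p ≤ z := by exact_mod_cast h3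
  have h5 := Real.log_le_log (by positivity) h4
  rw [Real.log_pow] at h5
  push_cast at h5
  linarith

theorem lv_main {A : ℕ → Prop} {z d : ℕ} (h : An A z d) :
    Real.log d ≤ Real.log z * ∑ i ∈ range (z + 1), (om z i d : ℝ) / 2 ^ i := by
  have h0 := h.1.ne_zero
  have h1 : Real.log d = ∑ p ∈ d.primeFactors, Real.log p := by
    conv_lhs => rw [← Nat.prod_primeFactors_of_squarefree h.1]
    push_cast
    rw [Real.log_prod]
    intro p hp
    have := (Nat.prime_of_mem_primeFactors hp).pos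
    positivity
  have h2 : ∀ p ∈ d.primeFactors, bi z p ∈ range (z + 1) := by
    intro p _
    rw [Finset.mem_range]
    have := (Nat.log_le_self 2 (Nat.log p z)).trans (Nat.log_le_self p z)
    unfold bi
    omega
  rw [h1, ← Finset.sum_fiberwise_of_maps_to h2, Finset.mul_sum]
  refine Finset.sum_le_sum (fun i _ => ?_)
  have h3 : ∀ p ∈ d.primeFactors.filter (fun p => bi z p = i), Real.log p ≤ Real.log z / 2 ^ i := by
    intro p hp
    obtain ⟨hp1, hp2⟩ := Finset.mem_filter.1 hp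
    have hpp := Nat.prime_of_mem_primeFactors hp1
    rw [← hp2]
    exact lv_block hpp.two_le (h.2 p hpp (Nat.dvd_of_mem_primeFactors hp1)).2
  refine (Finset.sum_le_card_nsmul _ _ _ h3).trans (le_of_eq ?_)
  rw [nsmul_eq_mul]
  unfold om
  ring

theorem lv_exp {z d m : ℕ} (hz : 2 ≤ z) (hd : d ≠ 0) (h : Real.log d ≤ Real.log z * m) :
    d ≤ z ^ m := by
  have hd' : (0 : ℝ) < d := by exact_mod_cast Nat.pos_of_ne_zero hd
  have hz' : (0 : ℝ) < z := by exact_mod_cast (by omega : 0 < z)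
  have h1 : Real.log d ≤ Real.log ((z : ℝ) ^ m) := by
    rw [Real.log_pow]
    linarith
  have h2 := (Real.log_le_log_iff hd' (by positivity)).1 h1
  exact_mod_cast h2

theorem pf_LV : T_LV := by
  intro A s z d hz
  have hlz : 0 ≤ Real.log z := Real.log_nonneg (by exact_mod_cast (by omega : 1 ≤ z))
  have hs0 := lv_sum s (z + 1)
  have hpos : 0 ≤ (4 * (s : ℝ) + 4 * ((z + 1 : ℕ) : ℝ) + 4) / 2 ^ (z + 1) := by positivity
  constructor
  · rintro ⟨h, hok⟩
    refine lv_exp hz h.1.ne_zero ((lv_main h).trans ?_)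
    refine mul_le_mul_of_nonneg_left ?_ hlz
    have h1 : ∑ i ∈ range (z + 1), (om z i d : ℝ) / 2 ^ i ≤
        ∑ i ∈ range (z + 1), (2 * ((s : ℝ) + i)) / 2 ^ i := by
      refine Finset.sum_le_sum (fun i _ => ?_)
      have h2 : (om z i d : ℝ) ≤ 2 * ((s : ℝ) + i) := by exact_mod_cast hok i
      gcongr
    push_cast
    linarith
  · rintro ⟨h, i₀, hi₀, hok⟩
    refine lv_exp hz h.1.ne_zero ((lv_main h).trans ?_)
    refine mul_le_mul_of_nonneg_left ?_ hlz
    have h1 : ∑ i ∈ range (z + 1), (om z i d : ℝ) / 2 ^ i ≤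
        ∑ i ∈ range (z + 1), ((2 * ((s : ℝ) + i)) / 2 ^ i + if i = i₀ then 1 else 0) := by
      refine Finset.sum_le_sum (fun i _ => ?_)
      by_cases hi : i = i₀
      · rw [if_pos hi, hi, hi₀]
        have h3 : (1 : ℝ) / 2 ^ i₀ ≤ 1 := by
          rw [div_le_one (by positivity)]
          exact one_le_pow₀ (by norm_num)
        push_cast
        have h4 : (2 * ((s : ℝ) + i₀) + 1) / 2 ^ i₀ = 2 * ((s : ℝ) + i₀) / 2 ^ i₀ + 1 / 2 ^ i₀ := by
          ring
        rw [h4]
        linarith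
      · rw [if_neg hi, add_zero]
        have h2 : (om z i d : ℝ) ≤ 2 * ((s : ℝ) + i) := by exact_mod_cast hok i hi
        gcongr
    have h5 : ∑ i ∈ range (z + 1), (if i = i₀ then (1 : ℝ) else 0) ≤ 1 := by
      rw [Finset.sum_ite_eq']
      split_ifs <;> norm_num
    rw [Finset.sum_add_distrib] at h1
    push_cast
    linarith

end Pool.Agent.H36.MS
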