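import Pool.Agent.H6.MS.RedDefs

/-!
# REDA: the group is finitely generated and metabelian
-/

set_option autoImplicit false

namespace Pool.Agent.H36.MS

open Pool.Agent.H6.MS

variable {n : ℕ}

lemma shift_add (p : ℕ) (V : Fin n → AddSubgroup Q) (q r : Q) :
    shift p V (q + r) = shift p V q * shift p V r := by
  simp only [shift, ofAdd_add, map_mul]

lemma shift_zsmul (p : ℕ) (V : Fin n → AddSubgroup Q) (k : ℤ) (q : Q) :
    shift p V (k • q) = shift p V q ^ k := by
  simp only [shift, ofAdd_zsmul, map_zpow]

lemma base_add (p : ℕ) (V : Fin n → AddSubgroup Q) (j : X V) (c d : ZMod p) :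
    base p V j (c + d) = base p V j c * base p V j d := by
  simp only [base, Finsupp.single_add, ofAdd_add, map_mul]

lemma base_zero (p : ℕ) (V : Fin n → AddSubgroup Q) (j : X V) : base p V j 0 = 1 := by
  simp only [base, Finsupp.single_zero, ofAdd_zero, map_one]

lemma base_nat (p : ℕ) (V : Fin n → AddSubgroup Q) (j : X V) (m : ℕ) :
    base p V j (m : ZMod p) = base p V j 1 ^ m := by
  induction m with
  | zero => rw [Nat.cast_zero, base_zero, pow_zero]
  | succ m ih => rw [Nat.cast_succ, base_add, ih, pow_succ]

lemma conj_base (p : ℕ) (V : Fin n → AddSubgroup Q) (q : Q) (j : X V) (c : ZMod p) :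
    shift p V q * base p V j c * (shift p V q)⁻¹ = base p V (trans V q j) c := by
  have h := SemidirectProduct.inl_aut (φ := act p V) (Multiplicative.ofAdd q)
    (Multiplicative.ofAdd (Finsupp.single j c))
  have h2 : (act p V (Multiplicative.ofAdd q)) (Multiplicative.ofAdd (Finsupp.single j c)) =
      Multiplicative.ofAdd (Finsupp.single (trans V q j) c) := by
    change Multiplicative.ofAdd (Finsupp.domCongr (trans V q) (Finsupp.single j c)) = _
    rw [Finsupp.domCongr_apply, Finsupp.equivMapDomain_single]
  rw [h2] at h
  simp only [base, shift]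
  rw [h, map_inv]

theorem fg_G (p : ℕ) [NeZero p] (V : Fin n → AddSubgroup Q) : Group.FG (G p V) := by
  rw [Group.fg_iff]
  refine ⟨{shift p V (1, 0, 0), shift p V (0, 1, 0), shift p V (0, 0, 1), base p V none 1} ∪
    Set.range (fun i : Fin n => base p V (some ⟨i, 0⟩) 1), ?_, ?_⟩
  · set S : Set (G p V) :=
      {shift p V (1, 0, 0), shift p V (0, 1, 0), shift p V (0, 0, 1), base p V none 1} ∪
        Set.range (fun i : Fin n => base p V (some ⟨i, 0⟩) 1) with hS
    have hshift : ∀ q : Q, shift p V q ∈ Subgroup.closure S := by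
      intro q
      have hq : q = q.1 • ((1, 0, 0) : Q) + q.2.1 • ((0, 1, 0) : Q) + q.2.2 • ((0, 0, 1) : Q) := by
        ext <;> simp
      rw [hq, shift_add, shift_add, shift_zsmul, shift_zsmul, shift_zsmul]
      refine Subgroup.mul_mem _ (Subgroup.mul_mem _ ?_ ?_) ?_
      · exact Subgroup.zpow_mem _ (Subgroup.subset_closure (by simp [hS])) _
      · exact Subgroup.zpow_mem _ (Subgroup.subset_closure (by simp [hS])) _
      · exact Subgroup.zpow_mem _ (Subgroup.subset_closure (by simp [hS])) _
    have hbase1 : ∀ j : X V, base p V j 1 ∈ Subgroup.closure S := by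
      intro j
      rcases j with _ | ⟨i, c⟩
      · exact Subgroup.subset_closure (by simp [hS])
      · obtain ⟨u, rfl⟩ := QuotientAddGroup.mk_surjective c
        have h1 : trans V u (some ⟨i, 0⟩) = some ⟨i, ((u : Q) : Q ⧸ V i)⟩ := by
          rw [trans_some, add_zero]
        rw [← h1, ← conj_base]
        refine Subgroup.mul_mem _ (Subgroup.mul_mem _ (hshift u) ?_)
          (Subgroup.inv_mem _ (hshift u))
        exact Subgroup.subset_closure (by simp [hS])
    have hbase : ∀ (j : X V) (c : ZMod p), base p V j c ∈ Subgroup.closure S := by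
      intro j c
      have hc : ((c.val : ℕ) : ZMod p) = c := ZMod.natCast_zmod_val c
      rw [← hc, base_nat]
      exact Subgroup.pow_mem _ (hbase1 j) _
    have hinl : ∀ m : X V →₀ ZMod p,
        (SemidirectProduct.inl (Multiplicative.ofAdd m) : G p V) ∈ Subgroup.closure S := by
      intro m
      induction m using Finsupp.induction_linear with
      | zero =>
        rw [ofAdd_zero, map_one]
        exact Subgroup.one_mem _
      | add f g hf hg =>
        rw [ofAdd_add, map_mul]
        exact Subgroup.mul_mem _ hf hg
      | single j c => exact hbase j c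
    rw [eq_top_iff]
    intro g _
    have hg : g = SemidirectProduct.inl g.left * SemidirectProduct.inr g.right :=
      (SemidirectProduct.inl_left_mul_inr_right g).symm
    rw [hg]
    exact Subgroup.mul_mem _ (hinl g.left.toAdd) (hshift g.right.toAdd)
  · apply Set.Finite.union
    · exact Set.toFinite _
    · exact Set.finite_range _

theorem metab_G (p : ℕ) (V : Fin n → AddSubgroup Q) : derivedSeries (G p V) 2 = ⊥ := by
  rw [derivedSeries_succ, Subgroup.commutator_eq_bot_iff_le_centralizer]
  have h1 : derivedSeries (G p V) 1 ≤ (SemidirectProduct.rightHom : G p V →* _).ker := by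
    rw [derivedSeries_one]
    exact Abelianization.commutator_subset_ker _
  intro a ha
  rw [Subgroup.mem_centralizer_iff]
  intro b hb
  have ha' := h1 ha
  have hb' := h1 hb
  rw [← SemidirectProduct.range_inl_eq_ker_rightHom] at ha' hb'
  obtain ⟨x, rfl⟩ := ha'
  obtain ⟨y, rfl⟩ := hb'
  rw [← map_mul, ← map_mul, mul_comm]

end Pool.Agent.H36.MS
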