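import Pool.Agent.H6.MS.RedDefs
import Pool.Agent.H36.MS.REDA

/-!
# REDD: periodic approximation, from the targets of REDB and REDC
-/

set_option autoImplicit false

open Filter Topology

namespace Pool.Agent.H36.MS

open Pool.Agent.H6.MS

/-- The target of REDB. -/
def T_REDB : Prop :=
  ∀ (n p : ℕ) [NeZero p] (V : Fin n → AddSubgroup Q) (f : Fin n → Q → ZMod p)
    (_ : ∀ i q v, v ∈ V i → f i (q + v) = f i q) (g h : G p V),
    Tendsto (fun k : ℕ =>
      (Nat.card {ω : Om p (k + 1) //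
        sig V f (k + 1) (g * h) ω ≠ sig V f (k + 1) g (sig V f (k + 1) h ω)} : ℝ) /
        (Nat.card (Om p (k + 1)) : ℝ)) atTop (𝓝 0)

/-- The target of REDC. -/
def T_REDC : Prop :=
  ∀ (n p : ℕ) [Fact p.Prime] (V : Fin n → AddSubgroup Q) (f : Fin n → Q → ZMod p)
    (L : ℕ) [NeZero L] (τ : G p V →* Equiv.Perm (Om p L))
    (W : Finset Q) (ε : ℝ) (_ : ε < 1)
    (_ : (Nat.card {ω : Om p L // ¬ ((∀ c : ZMod p, τ (base p V none c) ω = (ω.1, ω.2 + c)) ∧
      ∀ i, ∀ w ∈ W, τ (base p V (some ⟨i, ((w : Q) : Q ⧸ V i)⟩) 1) ω =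
        (ω.1, ω.2 + f i (w + rep ω.1)))} : ℝ) ≤ ε * (Nat.card (Om p L) : ℝ)),
    ∃ (N : ℕ) (_ : NeZero N) (g : Fin n → Q → ZMod p),
      (∀ i q v, v ∈ V i → g i (q + v) = g i q) ∧
      (∀ i q (v : Q), g i (q + (N : ℤ) • v) = g i q) ∧
      (Nat.card {t : ZMod N × ZMod N × ZMod N //
        ¬ ∃ q : Q, ∀ i, ∀ w ∈ W, g i (rep t + w) = f i (q + w)} : ℝ)
        ≤ ε * (N : ℝ) ^ 3

lemma card_transfer {α : Type*} {m : ℕ} (e : α ≃ Fin m) (P : Fin m → Prop) [DecidablePred P]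
    (R : α → Prop) (h : ∀ a, P (e a) ↔ R a) :
    (Finset.univ.filter P).card = Nat.card {a // R a} := by
  rw [← Fintype.card_subtype, ← Nat.card_eq_fintype_card]
  exact (Nat.card_congr (Equiv.subtypeEquiv e fun a => (h a).symm)).symm

lemma card_union_bound {α ι : Type*} [Finite α] (K : Finset ι) (B : α → Prop)
    (R : ι → α → Prop) (h : ∀ a, B a → ∃ g ∈ K, R g a) :
    Nat.card {a // B a} ≤ ∑ g ∈ K, Nat.card {a // R g a} := by
  classical
  have : Fintype α := Fintype.ofFinite α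
  have h1 : ∀ P : α → Prop, Nat.card {a // P a} = (Finset.univ.filter P).card := by
    intro P
    rw [Nat.card_eq_fintype_card, Fintype.card_subtype]
  simp_rw [h1]
  refine le_trans (Finset.card_le_card ?_)
    (Finset.card_biUnion_le (s := K) (t := fun g => Finset.univ.filter (R g)))
  intro a ha
  rw [Finset.mem_filter] at ha
  obtain ⟨g, hg, hR⟩ := h a ha.2
  rw [Finset.mem_biUnion]
  exact ⟨g, hg, by rw [Finset.mem_filter]; exact ⟨Finset.mem_univ _, hR⟩⟩

variable {n : ℕ}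

lemma sig_base_none {p : ℕ} (V : Fin n → AddSubgroup Q) (f : Fin n → Q → ZMod p) (L : ℕ)
    (c : ZMod p) (ω : Om p L) : sig V f L (base p V none c) ω = (ω.1, ω.2 + c) := by
  have hr : red L (0 : Q) = 0 := by
    simp [red]
  change ((ω.1 - red L (0 : Q), ω.2 + xi V f (rep (ω.1 - red L (0 : Q)))
    (Finsupp.single none c)) : Om p L) = _
  rw [hr, sub_zero, xi, Finsupp.linearCombination_single]
  simp [fX]

lemma sig_base_some {p : ℕ} (V : Fin n → AddSubgroup Q) (f : Fin n → Q → ZMod p) (L : ℕ)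
    (hf : ∀ i q v, v ∈ V i → f i (q + v) = f i q) (i : Fin n) (w : Q) (ω : Om p L) :
    sig V f L (base p V (some ⟨i, ((w : Q) : Q ⧸ V i)⟩) 1) ω =
      (ω.1, ω.2 + f i (w + rep ω.1)) := by
  have hr : red L (0 : Q) = 0 := by
    simp [red]
  change ((ω.1 - red L (0 : Q), ω.2 + xi V f (rep (ω.1 - red L (0 : Q)))
    (Finsupp.single (some ⟨i, ((w : Q) : Q ⧸ V i)⟩) 1)) : Om p L) = _
  rw [hr, sub_zero, xi, Finsupp.linearCombination_single, one_smul]
  congr 2
  change f i (Quotient.out ((w : Q) : Q ⧸ V i) + rep ω.1) = f i (w + rep ω.1)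
  obtain ⟨v, hv⟩ := QuotientAddGroup.mk_out_eq_add (V i) w
  rw [hv, add_right_comm, hf i _ _ v.2]

/-- The periodic approximation from the two targets. -/
theorem periodic_approx_of (hB : T_REDB) (hC : T_REDC)
    (H : ∀ (G : Type) [Group G], Group.FG G → derivedSeries G 2 = ⊥ →
      ∀ (n : ℕ → ℕ) (f : ∀ k : ℕ, G → Equiv.Perm (Fin (n k))),
        (∀ g h : G, Tendsto
          (fun k : ℕ => ((Finset.univ.filter
            (fun i : Fin (n k) => f k (g * h) i ≠ (f k g * f k h) i)).card : ℝ) / (n k : ℝ))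
          atTop (𝓝 0)) →
        ∃ φ : ∀ k : ℕ, G →* Equiv.Perm (Fin (n k)),
          ∀ g : G, Tendsto
            (fun k : ℕ => ((Finset.univ.filter
              (fun i : Fin (n k) => f k g i ≠ φ k g i)).card : ℝ) / (n k : ℝ))
            atTop (𝓝 0))
    (p : ℕ) [Fact p.Prime] (n : ℕ) (V : Fin n → AddSubgroup (ℤ × ℤ × ℤ))
    (f : Fin n → (ℤ × ℤ × ℤ) → ZMod p)
    (hf : ∀ i q v, v ∈ V i → f i (q + v) = f i q)
    (W : Finset (ℤ × ℤ × ℤ)) (ε : ℝ) (hε : 0 < ε) :
    ∃ (N : ℕ) (_ : NeZero N) (g : Fin n → (ℤ × ℤ × ℤ) → ZMod p),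
      (∀ i q v, v ∈ V i → g i (q + v) = g i q) ∧
      (∀ i q (v : ℤ × ℤ × ℤ), g i (q + (N : ℤ) • v) = g i q) ∧
      (Nat.card {t : ZMod N × ZMod N × ZMod N //
        ¬ ∃ q : ℤ × ℤ × ℤ, ∀ i, ∀ w ∈ W,
          g i (((t.1.val : ℤ), (t.2.1.val : ℤ), (t.2.2.val : ℤ)) + w) = f i (q + w)} : ℝ)
        ≤ ε * (N : ℝ) ^ 3 := by
  classical
  have hp0 : NeZero p := ⟨(Fact.out : p.Prime).ne_zero⟩
  let e : ∀ k : ℕ, Om p (k + 1) ≃ Fin (Nat.card (Om p (k + 1))) :=
    fun k => Finite.equivFin (Om p (k + 1))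
  obtain ⟨φ, hφ⟩ := H (G p V) (fg_G p V) (metab_G p V)
    (fun k => Nat.card (Om p (k + 1)))
    (fun k g => (e k).permCongr (sig V f (k + 1) g)) (by
      intro g h
      have h1 := hB n p V f hf g h
      refine h1.congr fun k => ?_
      congr 2
      refine (card_transfer (e k) _ _ fun ω => ?_).symm
      simp only [Equiv.permCongr_apply, Equiv.Perm.coe_mul, Function.comp_apply,
        Equiv.symm_apply_apply, ne_eq, EmbeddingLike.apply_eq_iff_eq])
  let τ : ∀ k : ℕ, G p V →* Equiv.Perm (Om p (k + 1)) := fun k =>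
    { toFun := fun g => (e k).symm.permCongr (φ k g)
      map_one' := by
        ext1 ω
        simp [Equiv.permCongr_apply]
      map_mul' := by
        intro g h
        ext1 ω
        simp [Equiv.permCongr_apply] }
  have hτ : ∀ g : G p V, Tendsto (fun k : ℕ =>
      (Nat.card {ω : Om p (k + 1) // sig V f (k + 1) g ω ≠ τ k g ω} : ℝ) /
        (Nat.card (Om p (k + 1)) : ℝ)) atTop (𝓝 0) := by
    intro g
    refine (hφ g).congr fun k => ?_
    congr 2
    refine card_transfer (e k) _ _ fun ω => ?_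
    change (e k) (sig V f (k + 1) g ((e k).symm (e k ω))) ≠ φ k g (e k ω) ↔
      sig V f (k + 1) g ω ≠ (e k).symm (φ k g ((e k).symm.symm ω))
    rw [Equiv.symm_apply_apply, Equiv.symm_symm, ne_eq, ne_eq, Equiv.eq_symm_apply]
  set K : Finset (G p V) := Finset.univ.image (fun c : ZMod p => base p V none c) ∪
    ((Finset.univ : Finset (Fin n)) ×ˢ W).image
      (fun x => base p V (some ⟨x.1, ((x.2 : Q) : Q ⧸ V x.1)⟩) 1) with hK
  have hsum : Tendsto (fun k : ℕ => ∑ g ∈ K,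
      (Nat.card {ω : Om p (k + 1) // sig V f (k + 1) g ω ≠ τ k g ω} : ℝ) /
        (Nat.card (Om p (k + 1)) : ℝ)) atTop (𝓝 0) := by
    have h1 := tendsto_finsetSum K (fun g _ => hτ g)
    simpa using h1
  have hε' : 0 < min ε (1 / 2) := lt_min hε (by norm_num)
  obtain ⟨k, hk⟩ := (hsum.eventually (gt_mem_nhds hε')).exists
  have hpos : (0 : ℝ) < (Nat.card (Om p (k + 1)) : ℝ) := by
    have : 0 < Nat.card (Om p (k + 1)) := Nat.card_pos
    exact_mod_cast this
  obtain ⟨N, hN, g, hg1, hg2, hg3⟩ := hC n p V f (k + 1) (τ k) W (min ε (1 / 2))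
    (lt_of_le_of_lt (min_le_right _ _) (by norm_num)) (by
      have h1 := card_union_bound K
        (fun ω : Om p (k + 1) => ¬ ((∀ c : ZMod p, τ k (base p V none c) ω = (ω.1, ω.2 + c)) ∧
          ∀ i, ∀ w ∈ W, τ k (base p V (some ⟨i, ((w : Q) : Q ⧸ V i)⟩) 1) ω =
            (ω.1, ω.2 + f i (w + rep ω.1))))
        (fun g ω => sig V f (k + 1) g ω ≠ τ k g ω) (by
          intro ω hω
          by_contra hcon
          push Not at hcon
          apply hω
          refine ⟨fun c => ?_, fun i w hw => ?_⟩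
          · rw [← hcon (base p V none c) (by
              rw [hK, Finset.mem_union]
              exact Or.inl (Finset.mem_image.mpr ⟨c, Finset.mem_univ _, rfl⟩))]
            exact sig_base_none V f (k + 1) c ω
          · rw [← hcon (base p V (some ⟨i, ((w : Q) : Q ⧸ V i)⟩) 1) (by
              rw [hK, Finset.mem_union]
              exact Or.inr (Finset.mem_image.mpr
                ⟨(i, w), Finset.mem_product.mpr ⟨Finset.mem_univ _, hw⟩, rfl⟩))]
            exact sig_base_some V f (k + 1) hf i w ω)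
      rw [← Finset.sum_div, div_lt_iff₀ hpos] at hk
      have h2 : (Nat.card {ω : Om p (k + 1) //
          ¬ ((∀ c : ZMod p, τ k (base p V none c) ω = (ω.1, ω.2 + c)) ∧
          ∀ i, ∀ w ∈ W, τ k (base p V (some ⟨i, ((w : Q) : Q ⧸ V i)⟩) 1) ω =
            (ω.1, ω.2 + f i (w + rep ω.1)))} : ℝ) ≤
          ∑ g ∈ K, (Nat.card {ω : Om p (k + 1) // sig V f (k + 1) g ω ≠ τ k g ω} : ℝ) := by
        exact_mod_cast h1
      exact le_trans h2 hk.le)
  refine ⟨N, hN, g, hg1, hg2, le_trans hg3 ?_⟩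
  exact mul_le_mul_of_nonneg_right (min_le_left _ _) (by positivity)

end Pool.Agent.H36.MS
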