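import Pool.Agent.H44.MS.Targets
import Pool.Agent.H44.MS.Basics

/-! # Squarefree numbers correspond to sets of primes -/

set_option autoImplicit false

namespace Pool.Agent.H36.MS

open Finset Real Pool.Agent.H44.MS

theorem mem_PA {A : ℕ → Prop} {z p : ℕ} : p ∈ PA A z ↔ p.Prime ∧ A p ∧ p ≤ z := by
  classical
  unfold PA
  simp only [Finset.mem_filter, Finset.mem_Icc]
  constructor
  · rintro ⟨⟨_, h2⟩, h3, h4⟩
    exact ⟨h3, h4, h2⟩
  · rintro ⟨h1, h2, h3⟩
    exact ⟨⟨h1.one_lt.le, h3⟩, h1, h2⟩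

theorem tr_sqf {T : Finset ℕ} (h : ∀ p ∈ T, p.Prime) : Squarefree (∏ p ∈ T, p) := by
  refine Finset.squarefree_prod_of_pairwise_isCoprime (fun p hp q hq hpq => ?_) ?_
  · exact Nat.coprime_iff_isRelPrime.1 ((Nat.coprime_primes (h p hp) (h q hq)).2 hpq)
  · intro p hp
    exact (h p hp).prime.squarefree

theorem tr_pf {T : Finset ℕ} (h : ∀ p ∈ T, p.Prime) : (∏ p ∈ T, p).primeFactors = T :=
  Nat.primeFactors_prod h

theorem tr_one_le {T : Finset ℕ} (h : ∀ p ∈ T, p.Prime) : 1 ≤ ∏ p ∈ T, p :=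
  Nat.one_le_iff_ne_zero.2 (Finset.prod_ne_zero_iff.2 (fun p hp => (h p hp).ne_zero))

theorem tr_mem_of_an {A : ℕ → Prop} {z d : ℕ} (h : An A z d) :
    d.primeFactors ⊆ PA A z := by
  intro p hp
  have h1 := Nat.prime_of_mem_primeFactors hp
  have h2 := h.2 p h1 (Nat.dvd_of_mem_primeFactors hp)
  exact mem_PA.2 ⟨h1, h2.1, h2.2⟩

theorem tr_an {A : ℕ → Prop} {z : ℕ} {T : Finset ℕ} (hT : T ⊆ PA A z) :
    An A z (∏ p ∈ T, p) := by
  have h : ∀ p ∈ T, p.Prime := fun p hp => (mem_PA.1 (hT hp)).1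
  refine ⟨tr_sqf h, fun p hp hd => ?_⟩
  have h1 : p ∈ (∏ p ∈ T, p).primeFactors :=
    Nat.mem_primeFactors.2 ⟨hp, hd, Nat.one_le_iff_ne_zero.1 (tr_one_le h)⟩
  rw [tr_pf h] at h1
  exact ⟨(mem_PA.1 (hT h1)).2.1, (mem_PA.1 (hT h1)).2.2⟩

theorem pf_TR : T_TR := by
  classical
  intro A z
  refine ⟨?_, ?_, ?_, ?_⟩
  · intro T hT
    have hT' := Finset.mem_powerset.1 hT
    have h : ∀ p ∈ T, p.Prime := fun p hp => (mem_PA.1 (hT' hp)).1
    refine ⟨tr_pf h, tr_one_le h, tr_an hT', ?_⟩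
    rw [mu_of_squarefree (tr_sqf h), tr_pf h]
  · intro X F
    rw [sum_ic_mul, sum_ic_mul (PA A z).powerset (fun T => ∏ p ∈ T, p ≤ X)
      (fun T => F (∏ p ∈ T, p))]
    refine Finset.sum_bij' (fun d _ => d.primeFactors) (fun T _ => ∏ p ∈ T, p) ?_ ?_ ?_ ?_ ?_
    · intro d hd
      obtain ⟨h1, h2⟩ := Finset.mem_filter.1 hd
      refine Finset.mem_filter.2 ⟨Finset.mem_powerset.2 (tr_mem_of_an h2), ?_⟩
      rw [Nat.prod_primeFactors_of_squarefree h2.1]
      exact (Finset.mem_Icc.1 h1).2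
    · intro T hT
      obtain ⟨h1, h2⟩ := Finset.mem_filter.1 hT
      have hT' := Finset.mem_powerset.1 h1
      exact Finset.mem_filter.2 ⟨Finset.mem_Icc.2
        ⟨tr_one_le (fun p hp => (mem_PA.1 (hT' hp)).1), h2⟩, tr_an hT'⟩
    · intro d hd
      exact Nat.prod_primeFactors_of_squarefree (Finset.mem_filter.1 hd).2.1
    · intro T hT
      exact tr_pf (fun p hp => (mem_PA.1
        (Finset.mem_powerset.1 (Finset.mem_filter.1 hT).1 hp)).1)
    · intro d hd
      rw [Nat.prod_primeFactors_of_squarefree (Finset.mem_filter.1 hd).2.1]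
  · intro m F hm
    rw [sum_ic_mul]
    refine Finset.sum_bij' (fun d _ => d.primeFactors) (fun T _ => ∏ p ∈ T, p) ?_ ?_ ?_ ?_ ?_
    · intro d hd
      obtain ⟨h1, h2⟩ := Finset.mem_filter.1 hd
      refine Finset.mem_powerset.2 (fun p hp => Finset.mem_filter.2 ⟨tr_mem_of_an h2 hp, ?_⟩)
      exact (Nat.dvd_of_mem_primeFactors hp).trans (Nat.dvd_of_mem_divisors h1)
    · intro T hT
      have h1 := Finset.mem_powerset.1 hT
      have hT' : T ⊆ PA A z := h1.trans (Finset.filter_subset _ _)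
      refine Finset.mem_filter.2 ⟨Nat.mem_divisors.2 ⟨?_, hm.ne'⟩, tr_an hT'⟩
      exact Finset.prod_primes_dvd m (fun p hp => (mem_PA.1 (hT' hp)).1.prime)
        (fun p hp => (Finset.mem_filter.1 (h1 hp)).2)
    · intro d hd
      exact Nat.prod_primeFactors_of_squarefree (Finset.mem_filter.1 hd).2.1
    · intro T hT
      exact tr_pf (fun p hp => (mem_PA.1
        (Finset.mem_filter.1 (Finset.mem_powerset.1 hT hp)).1).1)
    · intro d hd
      rw [Nat.prod_primeFactors_of_squarefree (Finset.mem_filter.1 hd).2.1]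
  · unfold VA PA
    rw [Finset.prod_filter]
    refine Finset.prod_congr rfl (fun p _ => ?_)
    by_cases hp : p.Prime ∧ A p
    · rw [ic_pos hp, if_pos hp]
    · rw [ic_neg hp, if_neg hp]
      simp

end Pool.Agent.H36.MS
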